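import Pool.Agent.P8H8.SV.Stm

/-! Package REP of project SV: compactly supported weak solutions of Poisson's equation with a
bounded right hand side are potentials, hence continuously differentiable. -/

set_option autoImplicit false

open MeasureTheory Set Filter Metric
open scoped Topology ContDiff

namespace Pool.Agent.P8H42.SV

open Pool.Agent.TH298.Sch (SC dd Lr dd_sc)
open Pool.Agent.R227.SA (la la_sc la_pot pot_symm pot_c1 pot_smooth lk_int)
open Pool.Agent.R227.LP (pot Nice)
open Pool.Agent.P8H8.SV (S_REP)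

/-- a smooth cutoff function -/
theorem exists_cut {r₀ r₁ : ℝ} (h0 : 0 < r₀) (h1 : r₀ < r₁) : ∃ χ : ℂ → ℝ, SC χ ∧
    (∀ x, ‖x‖ ≤ r₀ → χ x = 1) ∧ (∀ x, 0 ≤ χ x) ∧ (∀ x, χ x ≤ 1) ∧ (∀ x, r₁ ≤ ‖x‖ → χ x = 0) := by
  let f : ContDiffBump (0 : ℂ) := ⟨r₀, r₁, h0, h1⟩
  refine ⟨f, ⟨f.contDiff, f.hasCompactSupport⟩, fun x hx => ?_, fun x => f.nonneg, fun x => f.le_one,
    fun x hx => ?_⟩
  · exact f.one_of_mem_closedBall (by rw [mem_closedBall_zero_iff]; exact hx)
  · exact f.zero_of_le_dist (by rw [dist_zero_right]; exact hx)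

/-- `dd` is local -/
theorem dd_congr {f g : ℂ → ℝ} {x : ℂ} (h : f =ᶠ[𝓝 x] g) (v : ℂ) : dd v f =ᶠ[𝓝 x] dd v g := by
  filter_upwards [h.eventuallyEq_nhds] with y hy
  unfold dd
  rw [hy.fderiv_eq]

/-- `la` is local -/
theorem la_congr {f g : ℂ → ℝ} {x : ℂ} (h : f =ᶠ[𝓝 x] g) : la f x = la g x := by
  have h2 : ∀ v, dd v (dd v f) x = dd v (dd v g) x :=
    fun v => (dd_congr (dd_congr h v) v).eq_of_nhds
  unfold la
  rw [h2, h2]

/-- REP -/
theorem t_REP : S_REP := by
  intro V g M hV hVc hgm hgM hg0 hw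
  have hpi := Real.pi_pos
  have hN : Nice 1 g := lk_int one_pos hgm hgM hg0
  have hp1 : ContDiff ℝ 1 (pot g) := pot_c1 one_pos hgm hgM hg0
  obtain ⟨R0, hR0⟩ := hVc.isCompact.isBounded.exists_norm_le
  set R : ℝ := |R0| + 1 with hR
  have hRpos : 0 < R := by positivity
  have hR1 : 1 ≤ R := by rw [hR]; linarith [abs_nonneg R0]
  have hVR : ∀ x, R ≤ ‖x‖ → V x = 0 := by
    intro x hx
    apply image_eq_zero_of_notMem_tsupport
    intro h
    have := hR0 x h
    have := le_abs_self R0
    linarith
  obtain ⟨χ, hχ, hχ1, -, -, -⟩ := exists_cut (r₀ := R + 1) (r₁ := R + 2) (by linarith) (by linarith)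
  have key : ∀ φ, SC φ → ∫ x, (2 * Real.pi * V x + pot g x) * φ x = 0 := by
    intro φ hφ
    have hψ : SC (fun x => χ x * pot φ x) := ⟨hχ.sm.mul (pot_smooth hφ), hχ.cs.mul_right⟩
    have h1 := hw _ hψ
    have e1 : ∫ x, V x * la (fun x => χ x * pot φ x) x = ∫ x, -(2 * Real.pi) * (V x * φ x) := by
      refine integral_congr_ae (Eventually.of_forall fun x => ?_)
      simp only
      by_cases hx : ‖x‖ < R + 1
      · have e : (fun x => χ x * pot φ x) =ᶠ[𝓝 x] pot φ := by
          filter_upwards [(isOpen_lt continuous_norm continuous_const).mem_nhds hx] with y hy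
          rw [hχ1 y (le_of_lt hy), one_mul]
        rw [la_congr e, la_pot hφ]
        ring
      · rw [hVR x (by push Not at hx; linarith)]
        ring
    have e2 : ∫ x, g x * (χ x * pot φ x) = ∫ x, g x * pot φ x := by
      refine integral_congr_ae (Eventually.of_forall fun x => ?_)
      simp only
      by_cases hx : ‖x‖ ≤ R + 1
      · rw [hχ1 x hx, one_mul]
      · rw [hg0 x (by push Not at hx; linarith), zero_mul, zero_mul]
    rw [e1, e2, ← pot_symm hN hφ, integral_const_mul] at h1
    have i1 : Integrable (fun x => V x * φ x) :=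
      (hV.mul hφ.cont).integrable_of_hasCompactSupport hφ.cs.mul_left
    have i2 : Integrable (fun x => pot g x * φ x) :=
      (hp1.continuous.mul hφ.cont).integrable_of_hasCompactSupport hφ.cs.mul_left
    have e3 : (fun x => (2 * Real.pi * V x + pot g x) * φ x) =
        fun x => 2 * Real.pi * (V x * φ x) + pot g x * φ x := by
      funext x; ring
    rw [e3, integral_add (i1.const_mul _) i2, integral_const_mul, ← h1]
    ring
  have hcont : Continuous fun x => 2 * Real.pi * V x + pot g x :=
    (continuous_const.mul hV).add hp1.continuous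
  have hae := ae_eq_zero_of_integral_contDiff_smul_eq_zero (μ := (volume : Measure ℂ))
    hcont.locallyIntegrable (fun φ hφ hc => by
      have := key φ ⟨hφ, hc⟩
      rw [← this]
      refine integral_congr_ae (Eventually.of_forall fun x => ?_)
      simp only [smul_eq_mul]
      ring)
  have heq : (fun x => 2 * Real.pi * V x + pot g x) = fun _ => 0 :=
    (Continuous.ae_eq_iff_eq volume hcont continuous_const).1 hae
  have hVe : V = fun x => -(1 / (2 * Real.pi)) * pot g x := by
    funext x
    have := congrFun heq x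
    field_simp
    linarith
  rw [hVe]
  exact contDiff_const.mul hp1

end Pool.Agent.P8H42.SV
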