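import Pool.Agent.P8H42.SV.Cut

/-! Package ROT of project SV: the weak form of the equation of the angular derivative. -/

set_option autoImplicit false

open MeasureTheory Set Filter Metric
open scoped Topology ContDiff RealInnerProductSpace

namespace Pool.Agent.P8H42.SV

open Pool.Agent.TH298.Sch (SC dd Lr dd_sc Lr_sc Lr_eq lin_val dd_Lr)
open Pool.Agent.R227.SA (la la_sc)
open Pool.Agent.P8H8.SV (S_ROT)

theorem dd_cont {g : ℂ → ℝ} (hg : ContDiff ℝ 1 g) (v : ℂ) : Continuous (dd v g) :=
  (hg.continuous_fderiv (by simp)).clm_apply continuous_const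

theorem dd_cs {g : ℂ → ℝ} (hc : HasCompactSupport g) (v : ℂ) : HasCompactSupport (dd v g) :=
  (hc.fderiv ℝ).comp_left (g := fun T : ℂ →L[ℝ] ℝ => T v) (by simp)

theorem Lr_cont {g : ℂ → ℝ} (hg : ContDiff ℝ 1 g) : Continuous (Lr g) :=
  (hg.continuous_fderiv (by simp)).clm_apply (by fun_prop)

theorem Lr_cs {g : ℂ → ℝ} (hc : HasCompactSupport g) : HasCompactSupport (Lr g) := by
  refine (hc.fderiv ℝ).mono' ?_
  intro x hx
  apply subset_tsupport
  rw [Function.mem_support] at hx ⊢
  intro h0
  apply hx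
  unfold Lr
  rw [h0]
  simp

/-- the integral of an angular derivative vanishes -/
theorem int_Lr1 {g : ℂ → ℝ} (hg : ContDiff ℝ 1 g) (hc : HasCompactSupport g) :
    ∫ x, Lr g x = 0 := by
  have key : ∀ (T : ℂ →L[ℝ] ℝ) (v : ℂ), T v = 0 → ∫ x, T x * dd v g x = 0 := by
    intro T v hT
    have i1 : Integrable (fun x => fderiv ℝ (fun y => T y) x v * g x) := by
      have : (fun x => fderiv ℝ (fun y => T y) x v * g x) = fun _ => 0 := by
        funext x
        rw [show (fun y => T y) = T from rfl, T.fderiv, hT, zero_mul]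
      rw [this]
      exact integrable_zero _ _ _
    have i2 : Integrable (fun x => T x * fderiv ℝ g x v) := by
      refine Continuous.integrable_of_hasCompactSupport ?_ ?_
      · exact T.continuous.mul (dd_cont hg v)
      · exact (dd_cs hc v).mul_left
    have i3 : Integrable (fun x => T x * g x) :=
      Continuous.integrable_of_hasCompactSupport (T.continuous.mul hg.continuous) hc.mul_left
    have := integral_mul_fderiv_eq_neg_fderiv_mul_of_integrable (f := fun y => T y) (g := g)
      (v := v) i1 i2 i3 (fun x _ => T.differentiableAt)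
      (fun x _ => hg.differentiable (by simp) x)
    have e : ∫ x, fderiv ℝ (fun y => T y) x v * g x = 0 := by
      have : (fun x => fderiv ℝ (fun y => T y) x v * g x) = fun _ => 0 := by
        funext x
        rw [show (fun y => T y) = T from rfl, T.fderiv, hT, zero_mul]
      rw [this, integral_zero]
    rw [e, neg_zero] at this
    exact this
  have k1 := key Complex.imCLM 1 (by simp)
  have k2 := key Complex.reCLM Complex.I (by simp)
  have i1 : Integrable (fun x => Complex.imCLM x * dd 1 g x) :=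
    Continuous.integrable_of_hasCompactSupport
      (Complex.imCLM.continuous.mul (dd_cont hg 1)) (dd_cs hc 1).mul_left
  have i2 : Integrable (fun x => Complex.reCLM x * dd Complex.I g x) :=
    Continuous.integrable_of_hasCompactSupport
      (Complex.reCLM.continuous.mul (dd_cont hg Complex.I)) (dd_cs hc Complex.I).mul_left
  have e : Lr g = fun x => Complex.reCLM x * dd Complex.I g x - Complex.imCLM x * dd 1 g x := by
    funext x
    rw [Lr_eq]
    simp only [Complex.reCLM_apply, Complex.imCLM_apply]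
    ring
  rw [e, integral_sub i2 i1, k1, k2, sub_zero]

theorem Lr_mul1 {φ ψ : ℂ → ℝ} {x : ℂ} (h : DifferentiableAt ℝ φ x) (h' : DifferentiableAt ℝ ψ x) :
    Lr (fun y => φ y * ψ y) x = φ x * Lr ψ x + ψ x * Lr φ x := by
  unfold Lr
  rw [show (fun y => φ y * ψ y) = φ * ψ from rfl, (h.hasFDerivAt.mul h'.hasFDerivAt).fderiv]
  simp

/-- the integral of an angular derivative over the disc vanishes -/
theorem int_Lr_disc {g : ℂ → ℝ} (hg : ContDiff ℝ 1 g) (hc : HasCompactSupport g) :
    ∫ x in ball (0 : ℂ) 1, Lr g x = 0 := by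
  have h1 := tend_et ((Lr_cont hg).integrable_of_hasCompactSupport (Lr_cs hc))
  have h2 : ∀ n, ∫ w, et n w * Lr g w = 0 := by
    intro n
    have h3 := int_Lr1 (g := fun y => et n y * g y)
      (((et_smooth n).of_le (by simp)).mul hg) hc.mul_left
    rw [← h3]
    refine integral_congr_ae (Eventually.of_forall fun x => ?_)
    simp only
    rw [Lr_mul1 ((et_smooth n).differentiable (by simp) x) (hg.differentiable (by simp) x), Lr_et]
    ring
  simp only [h2] at h1
  exact tendsto_nhds_unique h1 tendsto_const_nhds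

/-- the angular derivative commutes with the Laplacian -/
theorem Lr_la {ψ : ℂ → ℝ} (hψ : SC ψ) (x : ℂ) : Lr (la ψ) x = la (Lr ψ) x := by
  have hI : Complex.I * Complex.I = -1 := Complex.I_mul_I
  have a1 : dd 1 (Lr ψ) = fun y => Lr (dd 1 ψ) y + dd Complex.I ψ y := by
    funext y; rw [dd_Lr hψ, mul_one]
  have a2 : dd Complex.I (Lr ψ) = fun y => Lr (dd Complex.I ψ) y + -dd 1 ψ y := by
    funext y
    rw [dd_Lr hψ, hI]
    unfold dd
    rw [map_neg]
  have dadd : ∀ (v : ℂ) {f g : ℂ → ℝ}, SC f → SC g → ∀ y,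
      dd v (fun z => f z + g z) y = dd v f y + dd v g y := by
    intro v f g hf hg y
    unfold dd
    rw [show (fun z => f z + g z) = f + g from rfl,
      ((hf.diff y).hasFDerivAt.add (hg.diff y).hasFDerivAt).fderiv]
    rfl
  have dneg : ∀ (v : ℂ) {f : ℂ → ℝ}, SC f → ∀ y, dd v (fun z => -f z) y = -dd v f y := by
    intro v f hf y
    unfold dd
    rw [show (fun z => -f z) = -f from rfl, ((hf.diff y).hasFDerivAt.neg).fderiv]
    rfl
  have sneg : ∀ {f : ℂ → ℝ}, SC f → SC (fun z => -f z) := fun hf => ⟨hf.sm.neg, hf.cs.neg⟩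
  have b1 : dd 1 (dd 1 (Lr ψ)) x =
      Lr (dd 1 (dd 1 ψ)) x + dd Complex.I (dd 1 ψ) x + dd 1 (dd Complex.I ψ) x := by
    rw [a1, dadd 1 (Lr_sc (dd_sc hψ 1)) (dd_sc hψ Complex.I), dd_Lr (dd_sc hψ 1), mul_one]
  have b2 : dd Complex.I (dd Complex.I (Lr ψ)) x =
      Lr (dd Complex.I (dd Complex.I ψ)) x - dd 1 (dd Complex.I ψ) x - dd Complex.I (dd 1 ψ) x := by
    rw [a2, dadd Complex.I (Lr_sc (dd_sc hψ Complex.I)) (sneg (dd_sc hψ 1)),
      dd_Lr (dd_sc hψ Complex.I), hI, dneg Complex.I (dd_sc hψ 1)]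
    have : dd (-1) (dd Complex.I ψ) x = -dd 1 (dd Complex.I ψ) x := by
      unfold dd
      rw [map_neg]
    rw [this]
    ring
  have b3 : Lr (la ψ) x = Lr (dd 1 (dd 1 ψ)) x + Lr (dd Complex.I (dd Complex.I ψ)) x :=
    Pool.Agent.TH298.Sch.Lr_add (dd_sc (dd_sc hψ 1) 1) (dd_sc (dd_sc hψ Complex.I) Complex.I) x
  rw [b3]
  unfold la
  rw [b1, b2]
  ring

/-- ROT -/
theorem t_ROT : S_ROT := by
  intro V f hV hVc hf hw ψ hψ
  have hL := la_sc hψ
  -- first integration by parts
  have s1 : ∫ w, Lr V w * la ψ w = -∫ w, V w * la (Lr ψ) w := by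
    have h0 := int_Lr1 (g := fun w => V w * la ψ w) (hV.mul (hL.sm.of_le (by simp))) hVc.mul_right
    have e : (fun w => Lr (fun w => V w * la ψ w) w) =
        fun w => V w * la (Lr ψ) w + Lr V w * la ψ w := by
      funext w
      rw [Lr_mul1 (hV.differentiable (by simp) w) (hL.diff w), Lr_la hψ]
      ring
    rw [show (fun w => Lr (fun w => V w * la ψ w) w) = Lr (fun w => V w * la ψ w) from rfl] at e
    rw [e, integral_add] at h0
    · linarith
    · exact (hV.continuous.mul (la_sc (Lr_sc hψ)).cont).integrable_of_hasCompactSupport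
        hVc.mul_right
    · exact ((Lr_cont hV).mul hL.cont).integrable_of_hasCompactSupport (Lr_cs hVc).mul_right
  have s2 := hw _ (Lr_sc hψ)
  have s3 : ∫ w in ball (0 : ℂ) 1, Lr f w * ψ w = -∫ w in ball (0 : ℂ) 1, f w * Lr ψ w := by
    have h0 := int_Lr_disc (g := fun w => f w * ψ w) (hf.mul (hψ.sm.of_le (by simp)))
      hψ.cs.mul_left
    have e : Lr (fun w => f w * ψ w) = fun w => f w * Lr ψ w + Lr f w * ψ w := by
      funext w
      rw [Lr_mul1 (hf.differentiable (by simp) w) (hψ.diff w)]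
      ring
    rw [e, integral_add] at h0
    · linarith
    · exact ((hf.continuous.mul (Lr_sc hψ).cont).integrable_of_hasCompactSupport
        (Lr_sc hψ).cs.mul_left).integrableOn
    · exact (((Lr_cont hf).mul hψ.cont).integrable_of_hasCompactSupport
        hψ.cs.mul_left).integrableOn
  rw [s1, s2, s3]

end Pool.Agent.P8H42.SV
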