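import Pool.Agent.P8H42.SV.Rot

/-! Package WEAK of project SV: the weak form of the equation. -/

set_option autoImplicit false

open MeasureTheory Set Filter Metric
open scoped Topology ContDiff RealInnerProductSpace

namespace Pool.Agent.P8H42.SV

open Pool.Agent.TH298.Sch (SC dd Lr dd_sc Lr_sc Lr_eq lin_val dd_Lr gr gr_sc)
open Pool.Agent.R227.SA (la la_sc)
open Pool.Agent.P8H8.SV (S_WEAK)

/-- integration by parts: `C¹` against smooth -/
theorem green1 {V ψ : ℂ → ℝ} (hV : ContDiff ℝ 1 V) (hVc : HasCompactSupport V) (hψ : SC ψ) :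
    ∫ w, V w * la ψ w = -∫ w, gr V ψ w := by
  have key : ∀ v : ℂ, ∫ w, V w * dd v (dd v ψ) w = -∫ w, dd v V w * dd v ψ w := by
    intro v
    exact integral_mul_fderiv_eq_neg_fderiv_mul_of_integrable (f := V) (g := dd v ψ) (v := v)
      (((dd_cont hV v).mul (dd_sc hψ v).cont).integrable_of_hasCompactSupport
        (dd_cs hVc v).mul_right)
      ((hV.continuous.mul (dd_sc (dd_sc hψ v) v).cont).integrable_of_hasCompactSupport
        hVc.mul_right)
      ((hV.continuous.mul (dd_sc hψ v).cont).integrable_of_hasCompactSupport hVc.mul_right)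
      (fun x _ => hV.differentiable (by simp) x) (fun x _ => (dd_sc hψ v).diff x)
  have e : (fun w => V w * la ψ w) =
      fun w => V w * dd 1 (dd 1 ψ) w + V w * dd Complex.I (dd Complex.I ψ) w := by
    funext w; unfold la; ring
  have ii : ∀ v : ℂ, Integrable fun w => V w * dd v (dd v ψ) w := fun v =>
    (hV.continuous.mul (dd_sc (dd_sc hψ v) v).cont).integrable_of_hasCompactSupport hVc.mul_right
  have ij : ∀ v : ℂ, Integrable fun w => dd v V w * dd v ψ w := fun v =>
    ((dd_cont hV v).mul (dd_sc hψ v).cont).integrable_of_hasCompactSupport (dd_cs hVc v).mul_right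
  rw [e, integral_add (ii 1) (ii Complex.I), key, key]
  unfold gr
  rw [integral_add (ij 1) (ij Complex.I)]
  ring

/-- multiplication by a cutoff function makes `V` smooth -/
theorem cut_sc {V : ℂ → ℝ} (hV : ContDiffOn ℝ ∞ V (ball 0 1)) (n : ℕ) (hn : 1 ≤ n) :
    SC (fun w => et n w * V w) := by
  refine ⟨?_, (et_sc n).cs.mul_right⟩
  rw [contDiff_iff_contDiffAt]
  intro w
  by_cases hw : ‖w‖ < 1
  · exact (et_smooth n).contDiffAt.mul (hV.contDiffAt (isOpen_ball.mem_nhds (by simpa using hw)))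
  · push Not at hw
    have h1 : (n : ℝ) * (1 - ‖w‖ ^ 2) < 1 := by
      have h2 : 1 - ‖w‖ ^ 2 ≤ 0 := by nlinarith
      have h3 : (1 : ℝ) ≤ n := by exact_mod_cast hn
      nlinarith
    have h2 : (fun w => et n w * V w) =ᶠ[𝓝 w] fun _ => 0 := by
      filter_upwards [et_ev_zero h1] with y hy
      rw [hy, zero_mul]
    exact contDiffAt_const.congr_of_eventuallyEq h2

/-- the exact identity with a cutoff -/
theorem cut_id {V f ψ : ℂ → ℝ} (hV : ContDiffOn ℝ ∞ V (ball 0 1))
    (heq : ∀ w ∈ ball (0 : ℂ) 1, la V w = f w) (hψ : SC ψ) (n : ℕ) (hn : 1 ≤ n) :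
    ∫ w, et n w * (f w * ψ w) = -∫ w, gr (fun w => et n w * ψ w) V w := by
  have hW := cut_sc hV (3 * n) (by omega)
  set W : ℂ → ℝ := fun w => et (3 * n) w * V w with hWd
  have hP : SC (fun w => et n w * ψ w) := (et_sc n).mul hψ
  have h1 := green1 (V := W) (hW.sm.of_le (by simp)) hW.cs hP
  have h2 := green1 (V := fun w => et n w * ψ w) (hP.sm.of_le (by simp)) hP.cs hW
  have hn1 : (1 : ℝ) ≤ n := by exact_mod_cast hn
  have key : ∀ w : ℂ, ¬ ((n : ℝ) * (1 - ‖w‖ ^ 2) < 1) → ‖w‖ < 1 ∧ W =ᶠ[𝓝 w] V := by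
    intro w hw
    push Not at hw
    refine ⟨?_, ?_⟩
    · by_contra hcon
      push Not at hcon
      have h2 : 1 - ‖w‖ ^ 2 ≤ 0 := by nlinarith
      nlinarith
    · have h3 : (2 : ℝ) < ((3 * n : ℕ) : ℝ) * (1 - ‖w‖ ^ 2) := by push_cast; linarith
      filter_upwards [et_ev_one h3] with y hy
      rw [hWd]
      simp only [hy, one_mul]
  have e1 : (fun w => et n w * ψ w * la W w) = fun w => et n w * (f w * ψ w) := by
    funext w
    by_cases hw : (n : ℝ) * (1 - ‖w‖ ^ 2) < 1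
    · rw [et_zero hw.le]; ring
    · obtain ⟨k1, k2⟩ := key w hw
      rw [la_congr k2, heq w (by simpa using k1)]
      ring
  have e2 : gr (fun w => et n w * ψ w) W = gr (fun w => et n w * ψ w) V := by
    funext w
    unfold gr
    by_cases hw : (n : ℝ) * (1 - ‖w‖ ^ 2) < 1
    · have h3 : (fun w => et n w * ψ w) =ᶠ[𝓝 w] fun _ => 0 := by
        filter_upwards [et_ev_zero hw] with y hy
        rw [hy, zero_mul]
      have h4 : ∀ v, dd v (fun w => et n w * ψ w) w = 0 := by
        intro v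
        rw [(dd_congr h3 v).eq_of_nhds]
        simp [dd]
      rw [h4, h4]
      ring
    · obtain ⟨k1, k2⟩ := key w hw
      rw [(dd_congr k2 1).eq_of_nhds, (dd_congr k2 Complex.I).eq_of_nhds]
  rw [← e1, h2, e2]

/-- the area of a thin annulus -/
theorem vol_ann (n : ℕ) (hn : 2 ≤ n) :
    volume.real (ball (0 : ℂ) 1 \ ball 0 (Real.sqrt (1 - 2 / n))) = 2 * Real.pi / n := by
  have hpi := Real.pi_pos
  have hn0 : (0 : ℝ) < n := by exact_mod_cast (by omega : 0 < n)
  have hn1 : (2 : ℝ) ≤ n := by exact_mod_cast hn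
  have h0 : 0 ≤ 1 - 2 / (n : ℝ) := by
    rw [sub_nonneg, div_le_one hn0]; exact hn1
  have h1 : Real.sqrt (1 - 2 / n) ≤ 1 := by
    have : 0 < 2 / (n : ℝ) := by positivity
    rw [Real.sqrt_le_left zero_le_one]
    linarith
  rw [measureReal_sdiff (ball_subset_ball h1) measurableSet_ball]
  have hv : ∀ r : ℝ, 0 ≤ r → volume.real (ball (0 : ℂ) r) = Real.pi * r ^ 2 := by
    intro r hr
    rw [measureReal_def, Complex.volume_ball, ENNReal.toReal_mul, ENNReal.toReal_pow,
      ENNReal.toReal_ofReal hr]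
    simp
    ring
  rw [hv 1 zero_le_one, hv _ (Real.sqrt_nonneg _), Real.sq_sqrt h0]
  field_simp
  ring

/-- the gradient is small near the boundary -/
theorem grad_small {V : ℂ → ℝ} (hV : ContDiff ℝ 1 V)
    (h0 : ∀ w, 1 ≤ ‖w‖ → V w = 0 ∧ fderiv ℝ V w = 0) (v : ℂ) {ε : ℝ} (hε : 0 < ε) :
    ∃ N : ℕ, ∀ n ≥ N, ∀ w : ℂ, ‖w‖ < 1 → (n : ℝ) * (1 - ‖w‖ ^ 2) ≤ 2 → |dd v V w| ≤ ε := by
  have hu : UniformContinuousOn (dd v V) (closedBall 0 1) :=
    (isCompact_closedBall (0 : ℂ) 1).uniformContinuousOn_of_continuous (dd_cont hV v).continuousOn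
  rw [Metric.uniformContinuousOn_iff] at hu
  obtain ⟨δ, hδ, hu⟩ := hu ε hε
  obtain ⟨N, hN⟩ := exists_nat_gt (max (2 / δ) 2)
  refine ⟨N, fun n hn w hw1 hw2 => ?_⟩
  have hNn : (N : ℝ) ≤ n := by exact_mod_cast hn
  have hn2 : (2 : ℝ) < n := lt_of_le_of_lt (le_max_right _ _) (hN.trans_le hNn)
  have hnδ : 2 / δ < n := lt_of_le_of_lt (le_max_left _ _) (hN.trans_le hNn)
  have hn0 : (0 : ℝ) < n := by linarith
  have hw0 : 0 < ‖w‖ := by
    rcases (norm_nonneg w).eq_or_lt with h | h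
    · rw [← h] at hw2
      nlinarith
    · exact h
  have h1 : 1 - ‖w‖ ^ 2 ≤ 2 / n := by
    rw [le_div_iff₀ hn0]; linarith
  have h2 : 1 - ‖w‖ ≤ 1 - ‖w‖ ^ 2 := by nlinarith
  have h3 : 2 / (n : ℝ) < δ := by
    rw [div_lt_iff₀ hδ] at hnδ
    rw [div_lt_iff₀ hn0]
    linarith
  set w' : ℂ := (‖w‖⁻¹ : ℝ) • w with hw'
  have hn1 : ‖w'‖ = 1 := by
    rw [hw', norm_smul, norm_inv, norm_norm, inv_mul_cancel₀ hw0.ne']
  have hd : dist w w' < δ := by
    rw [dist_eq_norm, show w - w' = (1 - ‖w‖⁻¹ : ℝ) • w by rw [hw', sub_smul, one_smul],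
      norm_smul, Real.norm_eq_abs]
    have h4 : (1 - ‖w‖⁻¹) * ‖w‖ = -(1 - ‖w‖) := by
      rw [sub_mul, inv_mul_cancel₀ hw0.ne']; ring
    have h5 : |1 - ‖w‖⁻¹| * ‖w‖ = 1 - ‖w‖ := by
      rw [← abs_of_pos hw0, ← abs_mul, abs_of_pos hw0, h4, abs_neg, abs_of_nonneg (by linarith)]
    rw [h5]
    linarith
  have h6 := hu w (by rw [mem_closedBall_zero_iff]; linarith) w'
    (by rw [mem_closedBall_zero_iff]; linarith) hd
  have h7 : dd v V w' = 0 := by
    unfold dd
    rw [(h0 w' hn1.ge).2]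
    simp
  rw [h7, Real.dist_eq, sub_zero] at h6
  exact h6.le

/-- WEAK -/
theorem t_WEAK : S_WEAK := by
  intro V f hV h0 hVs hf heq ψ hψ
  have hpi := Real.pi_pos
  have hVc : HasCompactSupport V := by
    refine HasCompactSupport.intro (isCompact_closedBall (0 : ℂ) 1) fun x hx => ?_
    rw [mem_closedBall_zero_iff, not_le] at hx
    exact (h0 x hx.le).1
  -- the error term
  obtain ⟨C, hC0, hC⟩ := exists_dd_et_le
  obtain ⟨M, hM⟩ := hψ.cs.exists_bound_of_continuous hψ.cont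
  have hM0 : 0 ≤ M := (norm_nonneg _).trans (hM 0)
  have hA : Tendsto (fun n : ℕ => ∫ w, ψ w * gr (et n) V w) atTop (𝓝 0) := by
    rw [Metric.tendsto_atTop]
    intro ε hε
    set ε' : ℝ := ε / (2 * (M * (2 * C) * (2 * Real.pi) + 1)) with hε'
    have hK : 0 < M * (2 * C) * (2 * Real.pi) + 1 := by positivity
    have hε'0 : 0 < ε' := by positivity
    obtain ⟨N1, hN1⟩ := grad_small hV h0 1 hε'0
    obtain ⟨N2, hN2⟩ := grad_small hV h0 Complex.I hε'0
    refine ⟨max (max N1 N2) 2, fun n hn => ?_⟩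
    have hn1 : N1 ≤ n := (le_max_left _ _).trans ((le_max_left _ _).trans hn)
    have hn2 : N2 ≤ n := (le_max_right _ _).trans ((le_max_left _ _).trans hn)
    have hn3 : 2 ≤ n := (le_max_right _ _).trans hn
    have hn0 : (0 : ℝ) < n := by exact_mod_cast (by omega : 0 < n)
    have hn4 : (2 : ℝ) ≤ n := by exact_mod_cast hn3
    have hs0 : 0 ≤ 1 - 2 / (n : ℝ) := by
      rw [sub_nonneg, div_le_one hn0]; exact hn4
    set S : Set ℂ := ball (0 : ℂ) 1 \ ball 0 (Real.sqrt (1 - 2 / n)) with hS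
    have e1 : ∫ w, ψ w * gr (et n) V w = ∫ w in S, ψ w * gr (et n) V w := by
      refine (setIntegral_eq_integral_of_forall_compl_eq_zero fun w hw => ?_).symm
      have h3 : (n : ℝ) * (1 - ‖w‖ ^ 2) < 1 ∨ 2 < (n : ℝ) * (1 - ‖w‖ ^ 2) := by
        by_cases hw1 : ‖w‖ < 1
        · right
          have hw2 : ‖w‖ < Real.sqrt (1 - 2 / n) := by
            by_contra hcon
            exact hw ⟨by simpa using hw1, by simpa using hcon⟩
          have hw3 : ‖w‖ ^ 2 < 1 - 2 / n := by
            rw [← Real.sq_sqrt hs0]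
            exact pow_lt_pow_left₀ hw2 (norm_nonneg _) (by norm_num)
          have : 2 / (n : ℝ) < 1 - ‖w‖ ^ 2 := by linarith
          rw [div_lt_iff₀ hn0] at this
          linarith
        · left
          push Not at hw1
          have h2 : 1 - ‖w‖ ^ 2 ≤ 0 := by nlinarith
          nlinarith
      unfold gr
      rw [dd_et_zero h3, dd_et_zero h3]
      ring
    have hb : ∀ w ∈ S, ‖ψ w * gr (et n) V w‖ ≤ M * (2 * (C * n * ε')) := by
      intro w hw
      have hw1 : ‖w‖ < 1 := by simpa using hw.1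
      have hw2 : Real.sqrt (1 - 2 / n) ≤ ‖w‖ := by simpa using hw.2
      have hw3 : (n : ℝ) * (1 - ‖w‖ ^ 2) ≤ 2 := by
        have : 1 - 2 / n ≤ ‖w‖ ^ 2 := by
          rw [← Real.sq_sqrt hs0]
          exact pow_le_pow_left₀ (Real.sqrt_nonneg _) hw2 2
        have : 1 - ‖w‖ ^ 2 ≤ 2 / (n : ℝ) := by linarith
        rw [le_div_iff₀ hn0] at this
        linarith
      have g1 := hN1 n hn1 w hw1 hw3
      have g2 := hN2 n hn2 w hw1 hw3
      have c1 := hC n 1 w (by simp)
      have c2 := hC n Complex.I w (by simp)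
      rw [norm_mul]
      refine mul_le_mul (hM w) ?_ (norm_nonneg _) hM0
      unfold gr
      rw [Real.norm_eq_abs]
      refine (abs_add_le _ _).trans ?_
      rw [abs_mul, abs_mul]
      have m1 := mul_le_mul c1 g1 (abs_nonneg _) (by positivity)
      have m2 := mul_le_mul c2 g2 (abs_nonneg _) (by positivity)
      linarith
    have hfin : volume S < ⊤ := lt_of_le_of_lt (measure_mono sdiff_subset) measure_ball_lt_top
    have h5 := norm_setIntegral_le_of_norm_le_const hfin hb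
    rw [hS, vol_ann n hn3, ← hS] at h5
    rw [dist_zero_right, e1]
    refine h5.trans_lt ?_
    have e6 : M * (2 * (C * n * ε')) * (2 * Real.pi / n) = M * (2 * C) * (2 * Real.pi) * ε' := by
      field_simp
    rw [e6, hε']
    have h7 : M * (2 * C) * (2 * Real.pi) * (ε / (2 * (M * (2 * C) * (2 * Real.pi) + 1))) =
        ε / 2 * (M * (2 * C) * (2 * Real.pi) / (M * (2 * C) * (2 * Real.pi) + 1)) := by
      field_simp
    rw [h7]
    have h8 : M * (2 * C) * (2 * Real.pi) / (M * (2 * C) * (2 * Real.pi) + 1) ≤ 1 := by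
      rw [div_le_one hK]; linarith
    have h9 : 0 < ε / 2 := half_pos hε
    calc ε / 2 * (M * (2 * C) * (2 * Real.pi) / (M * (2 * C) * (2 * Real.pi) + 1)) ≤ ε / 2 * 1 :=
          mul_le_mul_of_nonneg_left h8 h9.le
      _ < ε := by linarith
  -- the main terms
  have hgc : Continuous (gr ψ V) :=
    ((dd_sc hψ 1).cont.mul (dd_cont hV 1)).add ((dd_sc hψ Complex.I).cont.mul (dd_cont hV Complex.I))
  have hgs : HasCompactSupport (gr ψ V) :=
    (dd_sc hψ 1).cs.mul_right.add (dd_sc hψ Complex.I).cs.mul_right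
  have hgi : Integrable (gr ψ V) := hgc.integrable_of_hasCompactSupport hgs
  have t1 := tend_et (F := fun w => f w * ψ w)
    ((hf.mul hψ.cont).integrable_of_hasCompactSupport hψ.cs.mul_left)
  have t2 := tend_et hgi
  have e3 : ∀ n : ℕ, 1 ≤ n → ∫ w, et n w * (f w * ψ w) =
      -(∫ w, et n w * gr ψ V w) - ∫ w, ψ w * gr (et n) V w := by
    intro n hn
    rw [cut_id hVs heq hψ n hn]
    have e4 : (fun w => gr (fun w => et n w * ψ w) V w) =
        fun w => et n w * gr ψ V w + ψ w * gr (et n) V w := by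
      funext w
      have hm : ∀ v, dd v (fun w => et n w * ψ w) w = et n w * dd v ψ w + ψ w * dd v (et n) w := by
        intro v
        unfold dd
        rw [show (fun w => et n w * ψ w) = et n * ψ from rfl,
          (((et_sc n).diff w).hasFDerivAt.mul (hψ.diff w).hasFDerivAt).fderiv]
        simp
      unfold gr
      rw [hm, hm]
      ring
    rw [e4, integral_add]
    · ring
    · exact ((et_smooth n).continuous.mul hgc).integrable_of_hasCompactSupport hgs.mul_left
    · refine (hψ.cont.mul ?_).integrable_of_hasCompactSupport hψ.cs.mul_right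
      exact ((dd_sc (et_sc n) 1).cont.mul (dd_cont hV 1)).add
        ((dd_sc (et_sc n) Complex.I).cont.mul (dd_cont hV Complex.I))
  have t3 : Tendsto (fun n : ℕ => -(∫ w, et n w * gr ψ V w) - ∫ w, ψ w * gr (et n) V w) atTop
      (𝓝 (-(∫ w in ball (0 : ℂ) 1, gr ψ V w) - 0)) := t2.neg.sub hA
  have t4 : Tendsto (fun n : ℕ => ∫ w, et n w * (f w * ψ w)) atTop
      (𝓝 (-(∫ w in ball (0 : ℂ) 1, gr ψ V w) - 0)) := by
    refine t3.congr' ?_
    filter_upwards [eventually_ge_atTop 1] with n hn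
    exact (e3 n hn).symm
  have e5 := tendsto_nhds_unique t1 t4
  have e6 : ∫ w in ball (0 : ℂ) 1, gr ψ V w = ∫ w, gr ψ V w := by
    refine setIntegral_eq_integral_of_forall_compl_eq_zero fun w hw => ?_
    have hw1 : 1 ≤ ‖w‖ := by simpa using hw
    unfold gr dd
    rw [(h0 w hw1).2]
    simp
  have e7 : gr ψ V = gr V ψ := by
    funext w; unfold gr; ring
  rw [green1 hV hVc hψ, e5, e6, e7, sub_zero]

end Pool.Agent.P8H42.SV
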