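import Pool.Agent.P8H42.SV.Rep

/-! Radial cutoff functions of the unit disc. -/

set_option autoImplicit false

open MeasureTheory Set Filter Metric
open scoped Topology ContDiff RealInnerProductSpace

namespace Pool.Agent.P8H42.SV

open Pool.Agent.TH298.Sch (SC dd Lr dd_sc Lr_sc Lr_eq lin_val)
open Pool.Agent.R227.SA (la la_sc)

/-- the radial cutoff functions -/
noncomputable def et (n : ℕ) (w : ℂ) : ℝ := Real.smoothTransition ((n : ℝ) * (1 - ‖w‖ ^ 2) - 1)

theorem et_smooth (n : ℕ) : ContDiff ℝ ∞ (et n) := by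
  unfold et
  refine Real.smoothTransition.contDiff.comp ?_
  exact (contDiff_const.mul (contDiff_const.sub (contDiff_norm_sq ℝ))).sub contDiff_const

theorem et_zero {n : ℕ} {w : ℂ} (h : (n : ℝ) * (1 - ‖w‖ ^ 2) ≤ 1) : et n w = 0 :=
  Real.smoothTransition.zero_of_nonpos (by linarith)

theorem et_out {n : ℕ} {w : ℂ} (h : 1 ≤ ‖w‖) : et n w = 0 := by
  refine et_zero ?_
  have h1 : 1 - ‖w‖ ^ 2 ≤ 0 := by nlinarith
  have h2 : (0 : ℝ) ≤ n := Nat.cast_nonneg n
  nlinarith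

theorem et_one {n : ℕ} {w : ℂ} (h : 2 ≤ (n : ℝ) * (1 - ‖w‖ ^ 2)) : et n w = 1 :=
  Real.smoothTransition.one_of_one_le (by linarith)

theorem et_nonneg (n : ℕ) (w : ℂ) : 0 ≤ et n w := Real.smoothTransition.nonneg _

theorem et_le (n : ℕ) (w : ℂ) : et n w ≤ 1 := Real.smoothTransition.le_one _

theorem et_sc (n : ℕ) : SC (et n) := by
  refine ⟨et_smooth n, HasCompactSupport.intro (isCompact_closedBall (0 : ℂ) 1) fun x hx => ?_⟩
  rw [mem_closedBall_zero_iff, not_le] at hx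
  exact et_out hx.le

/-- the derivative of the argument -/
theorem et_arg (n : ℕ) (w : ℂ) : HasFDerivAt (fun w : ℂ => (n : ℝ) * (1 - ‖w‖ ^ 2) - 1)
    ((-(n : ℝ)) • ((2 : ℝ) • innerSL ℝ w)) w := by
  have h1 : HasFDerivAt (fun w : ℂ => ‖w‖ ^ 2) (2 • innerSL ℝ w) w :=
    (hasStrictFDerivAt_norm_sq w).hasFDerivAt
  have h2 := ((h1.const_sub 1).const_mul (n : ℝ)).sub_const 1
  refine h2.congr_fderiv ?_
  ext v
  simp
  left
  ring

theorem dd_et (n : ℕ) (v w : ℂ) : dd v (et n) w =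
    deriv Real.smoothTransition ((n : ℝ) * (1 - ‖w‖ ^ 2) - 1) * (-(n : ℝ) * (2 * ⟪w, v⟫)) := by
  have hs : DifferentiableAt ℝ Real.smoothTransition ((n : ℝ) * (1 - ‖w‖ ^ 2) - 1) :=
    (Real.smoothTransition.contDiff (n := 1)).differentiable (by simp) _
  have := hs.hasDerivAt.comp_hasFDerivAt w (et_arg n w)
  unfold dd
  rw [show et n = Real.smoothTransition ∘ fun w : ℂ => (n : ℝ) * (1 - ‖w‖ ^ 2) - 1 from rfl,
    this.fderiv]
  simp

theorem Lr_et (n : ℕ) (w : ℂ) : Lr (et n) w = 0 := by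
  have := dd_et n (Complex.I * w) w
  unfold dd at this
  unfold Lr
  rw [this]
  have : ⟪w, Complex.I * w⟫ = 0 := by
    rw [Complex.inner]
    simp
    ring
  rw [this]
  ring

/-- near the boundary -/
theorem et_ev_zero {n : ℕ} {w : ℂ} (h : (n : ℝ) * (1 - ‖w‖ ^ 2) < 1) : et n =ᶠ[𝓝 w] fun _ => 0 := by
  have hc : Continuous fun w : ℂ => (n : ℝ) * (1 - ‖w‖ ^ 2) := by fun_prop
  filter_upwards [(isOpen_lt hc continuous_const).mem_nhds h] with y hy
  exact et_zero (le_of_lt hy)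

theorem et_ev_one {n : ℕ} {w : ℂ} (h : 2 < (n : ℝ) * (1 - ‖w‖ ^ 2)) : et n =ᶠ[𝓝 w] fun _ => 1 := by
  have hc : Continuous fun w : ℂ => (n : ℝ) * (1 - ‖w‖ ^ 2) := by fun_prop
  filter_upwards [(isOpen_lt continuous_const hc).mem_nhds h] with y hy
  exact et_one (le_of_lt hy)

theorem dd_et_zero {n : ℕ} {v w : ℂ} (h : (n : ℝ) * (1 - ‖w‖ ^ 2) < 1 ∨ 2 < (n : ℝ) * (1 - ‖w‖ ^ 2)) :
    dd v (et n) w = 0 := by
  rcases h with h | h
  · rw [(dd_congr (et_ev_zero h) v).eq_of_nhds]; simp [dd]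
  · rw [(dd_congr (et_ev_one h) v).eq_of_nhds]; simp [dd]

/-- a bound for the gradient of the cutoff functions -/
theorem exists_dd_et_le : ∃ C : ℝ, 0 ≤ C ∧ ∀ (n : ℕ) (v w : ℂ), ‖v‖ ≤ 1 → |dd v (et n) w| ≤ C * n := by
  obtain ⟨C, hC⟩ := (isCompact_Icc (a := (0 : ℝ)) (b := 1)).exists_bound_of_continuousOn
    (f := deriv Real.smoothTransition)
    ((Real.smoothTransition.contDiff (n := 1)).continuous_deriv (by simp)).continuousOn
  refine ⟨2 * |C|, by positivity, fun n v w hv => ?_⟩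
  have hn : (0 : ℝ) ≤ n := Nat.cast_nonneg n
  by_cases h1 : (n : ℝ) * (1 - ‖w‖ ^ 2) < 1
  · rw [dd_et_zero (Or.inl h1), abs_zero]; positivity
  by_cases h2 : 2 < (n : ℝ) * (1 - ‖w‖ ^ 2)
  · rw [dd_et_zero (Or.inr h2), abs_zero]; positivity
  push Not at h1 h2
  have hw : ‖w‖ ≤ 1 := by
    by_contra hcon
    push Not at hcon
    have : 1 - ‖w‖ ^ 2 ≤ 0 := by nlinarith
    nlinarith
  rw [dd_et, abs_mul, abs_mul, abs_neg, abs_of_nonneg hn, abs_mul, abs_two]
  have h3 := hC _ (⟨by linarith, by linarith⟩ : (n : ℝ) * (1 - ‖w‖ ^ 2) - 1 ∈ Icc (0 : ℝ) 1)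
  rw [Real.norm_eq_abs] at h3
  have h4 : |⟪w, v⟫| ≤ 1 := by
    refine (abs_real_inner_le_norm w v).trans ?_
    nlinarith [norm_nonneg w, norm_nonneg v]
  have h5 := h3.trans (le_abs_self C)
  calc |deriv Real.smoothTransition ((n : ℝ) * (1 - ‖w‖ ^ 2) - 1)| * (n * (2 * |⟪w, v⟫|)) ≤
      |C| * (n * (2 * 1)) := by gcongr
    _ = 2 * |C| * n := by ring

theorem et_tendsto (w : ℂ) : Tendsto (fun n => et n w) atTop
    (𝓝 ((ball (0 : ℂ) 1).indicator (fun _ => (1 : ℝ)) w)) := by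
  by_cases hw : ‖w‖ < 1
  · rw [indicator_of_mem (by rwa [mem_ball_zero_iff])]
    have h1 : 0 < 1 - ‖w‖ ^ 2 := by nlinarith [norm_nonneg w]
    obtain ⟨N, hN⟩ := exists_nat_gt (2 / (1 - ‖w‖ ^ 2))
    refine tendsto_const_nhds.congr' ?_
    filter_upwards [eventually_ge_atTop N] with n hn
    refine (et_one ?_).symm
    rw [div_lt_iff₀ h1] at hN
    have : (N : ℝ) ≤ n := by exact_mod_cast hn
    nlinarith
  · rw [indicator_of_notMem (by rwa [mem_ball_zero_iff])]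
    push Not at hw
    simp [et_out hw]

/-- convergence of the integrals -/
theorem tend_et {F : ℂ → ℝ} (hF : Integrable F) :
    Tendsto (fun n => ∫ w, et n w * F w) atTop (𝓝 (∫ w in ball (0 : ℂ) 1, F w)) := by
  rw [← integral_indicator measurableSet_ball]
  refine tendsto_integral_of_dominated_convergence (fun w => ‖F w‖) (fun n => ?_) hF.norm
    (fun n => Eventually.of_forall fun w => ?_) (Eventually.of_forall fun w => ?_)
  · exact (et_smooth n).continuous.aestronglyMeasurable.mul hF.aestronglyMeasurable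
  · rw [norm_mul, Real.norm_eq_abs, abs_of_nonneg (et_nonneg n w)]
    exact mul_le_of_le_one_left (norm_nonneg _) (et_le n w)
  · have := (et_tendsto w).mul_const (F w)
    convert this using 2
    by_cases hw : w ∈ ball (0 : ℂ) 1
    · rw [indicator_of_mem hw, indicator_of_mem hw, one_mul]
    · rw [indicator_of_notMem hw, indicator_of_notMem hw, zero_mul]

end Pool.Agent.P8H42.SV
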